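import Mathlib
import Pool.Agent.Leo3.Stmts

/-!
# One step going up in a cyclic cubic extension (module GUP)
-/

set_option autoImplicit false

open NumberField IsDedekindDomain WithZero Module Polynomial

namespace Pool.Agent.Leo3.H83

section val

variable {L : Type} [Field L]

theorem mem_pow_comap (e : 𝓞 L ≃+* 𝓞 L) (I : Ideal (𝓞 L)) (x : 𝓞 L) (n : ℕ) :
    x ∈ (I.comap (e : 𝓞 L →+* 𝓞 L)) ^ n ↔ e x ∈ I ^ n := by
  have h1 : I.comap (e : 𝓞 L →+* 𝓞 L) = I.map (e.symm : 𝓞 L →+* 𝓞 L) := by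
    exact (Ideal.map_symm e).symm
  rw [h1, ← Ideal.map_pow]
  have h2 : (I ^ n).map (e.symm : 𝓞 L →+* 𝓞 L) = (I ^ n).comap (e : 𝓞 L →+* 𝓞 L) :=
    Ideal.map_symm e
  rw [h2, Ideal.mem_comap]
  rfl

variable [NumberField L]

theorem intVal_equiv (e : 𝓞 L ≃+* 𝓞 L) (q : HeightOneSpectrum (𝓞 L)) (x : 𝓞 L) :
    q.intValuation (e x) =
      (HeightOneSpectrum.comap (e : 𝓞 L →+* 𝓞 L) e.surjective q).intValuation x := by
  set q' := HeightOneSpectrum.comap (e : 𝓞 L →+* 𝓞 L) e.surjective q with hq'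
  by_cases hx : x = 0
  · subst hx; simp
  have hex : e x ≠ 0 := by
    intro h
    exact hx (by simpa using h)
  have key : ∀ n : ℕ, q.intValuation (e x) ≤ exp (-(n : ℤ)) ↔ q'.intValuation x ≤ exp (-(n : ℤ)) := by
    intro n
    rw [HeightOneSpectrum.intValuation_le_pow_iff_mem, HeightOneSpectrum.intValuation_le_pow_iff_mem]
    exact (mem_pow_comap e q.asIdeal x n).symm
  have h1 := HeightOneSpectrum.intValuation_eq_exp_neg_multiplicity q hex
  have h2 := HeightOneSpectrum.intValuation_eq_exp_neg_multiplicity q' hx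
  apply le_antisymm
  · rw [h2, key, ← h2]
  · rw [h1, ← key, ← h1]

theorem val_equiv (σ : L ≃+* L) (q : HeightOneSpectrum (𝓞 L)) (z : L) :
    q.valuation L (σ z) =
      (HeightOneSpectrum.comap (RingOfIntegers.mapRingEquiv σ : 𝓞 L →+* 𝓞 L)
        (RingOfIntegers.mapRingEquiv σ).surjective q).valuation L z := by
  obtain ⟨x, y, hy, rfl⟩ := IsFractionRing.div_surjective (A := 𝓞 L) z
  rw [map_div₀, map_div₀, map_div₀]
  have hx : ∀ x : 𝓞 L, σ (algebraMap (𝓞 L) L x) =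
      algebraMap (𝓞 L) L (RingOfIntegers.mapRingEquiv σ x) := fun x => rfl
  rw [hx, hx, HeightOneSpectrum.valuation_of_algebraMap, HeightOneSpectrum.valuation_of_algebraMap,
    HeightOneSpectrum.valuation_of_algebraMap, HeightOneSpectrum.valuation_of_algebraMap,
    intVal_equiv, intVal_equiv]

theorem valCube_map {z : L} (hz : ValCube z) (σ : L ≃+* L) : ValCube (σ z) := by
  intro q hq
  rw [val_equiv σ q z]
  apply hz
  intro h
  apply hq
  have h' : (RingOfIntegers.mapRingEquiv σ : 𝓞 L →+* 𝓞 L) 6 ∈ q.asIdeal := h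
  have e6 : (RingOfIntegers.mapRingEquiv σ : 𝓞 L →+* 𝓞 L) 6 = 6 := map_ofNat _ 6
  rw [e6] at h'
  exact h'

theorem valCube_mul {z w : L} (hz : ValCube z) (hw : ValCube w) : ValCube (z * w) := by
  intro q hq
  obtain ⟨x, hx⟩ := hz q hq
  obtain ⟨y, hy⟩ := hw q hq
  exact ⟨x * y, by rw [map_mul, hx, hy, mul_pow]⟩

theorem valCube_inv {z : L} (hz : ValCube z) : ValCube z⁻¹ := by
  intro q hq
  obtain ⟨x, hx⟩ := hz q hq
  exact ⟨x⁻¹, by rw [map_inv₀, hx, inv_pow]⟩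

theorem valCube_cube (s : L) : ValCube (s ^ 3) := by
  intro q hq
  exact ⟨q.valuation L s, by rw [map_pow]⟩

end val

section loc

variable {L : Type} [Field L]

theorem inLoc_mul {φ : L →+* Om} {s t : Om} (hs : InLoc φ s) (ht : InLoc φ t) :
    InLoc φ (s * t) := by
  intro ρ hρ
  rw [map_mul, hs ρ hρ, ht ρ hρ]

theorem inLoc_inv {φ : L →+* Om} {s : Om} (hs : InLoc φ s) : InLoc φ s⁻¹ := by
  intro ρ hρ
  rw [map_inv₀, hs ρ hρ]

theorem inLoc_self (φ : L →+* Om) (x : L) : InLoc φ (φ x) := fun _ hρ => hρ x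

theorem inLoc_comp {φ : L →+* Om} (σ : L ≃+* L) {t : Om}
    (ht : InLoc (φ.comp (σ : L →+* L)) t) : InLoc φ t := by
  intro ρ hρ
  apply ht
  intro x
  exact hρ (σ x)

theorem locCube_map {z : L} (hz : LocCube z) (σ : L ≃+* L) : LocCube (σ z) := by
  intro φ
  obtain ⟨t, ht, h3⟩ := hz (φ.comp (σ : L →+* L))
  exact ⟨t, inLoc_comp σ ht, h3⟩

theorem locCube_mul {z w : L} (hz : LocCube z) (hw : LocCube w) : LocCube (z * w) := by
  intro φ
  obtain ⟨s, hs, hs3⟩ := hz φ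
  obtain ⟨t, ht, ht3⟩ := hw φ
  exact ⟨s * t, inLoc_mul hs ht, by rw [mul_pow, hs3, ht3, map_mul]⟩

theorem locCube_inv {z : L} (hz : LocCube z) : LocCube z⁻¹ := by
  intro φ
  obtain ⟨s, hs, hs3⟩ := hz φ
  exact ⟨s⁻¹, inLoc_inv hs, by rw [inv_pow, hs3, map_inv₀]⟩

theorem exists_emb (L : Type) [Field L] [NumberField L] : Nonempty (L →+* Om) := by
  have : CharZero Om := charZero_of_injective_algebraMap (algebraMap ℚ_[3] Om).injective
  let _ : Algebra ℚ Om := DivisionRing.toRatAlgebra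
  exact ⟨((IsAlgClosed.lift : L →ₐ[ℚ] Om) : L →+* Om)⟩

theorem eq_one_of_cube {L : Type} [Field L] [NumberField L] (h : NoMu L) {x : L}
    (hx : x ^ 3 = 1) : x = 1 := by
  obtain ⟨φ⟩ := exists_emb L
  have := h φ (φ x) (inLoc_self φ x) (by rw [← map_pow, hx, map_one])
  exact φ.injective (by rw [this, map_one])

theorem exists_ext (K L : Type) [Field K] [NumberField K] [Field L] [NumberField L] [Algebra K L]
    (φ : K →+* Om) : ∃ ψ : L →+* Om, ψ.comp (algebraMap K L) = φ := by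
  let _ : Algebra K Om := φ.toAlgebra
  have : Algebra.IsAlgebraic K L := Algebra.IsAlgebraic.of_finite K L
  let f : L →ₐ[K] Om := IsAlgClosed.lift
  refine ⟨(f : L →+* Om), ?_⟩
  ext x
  exact f.commutes x

end loc

section main

variable {K L : Type} [Field K] [NumberField K] [Field L] [NumberField L] [Algebra K L]

theorem valCube_down (hU : UnrOut K L) {k : K} (h : ValCube (algebraMap K L k)) : ValCube k := by
  intro q hq
  have hqm : q.asIdeal.IsMaximal := q.isPrime.isMaximal q.ne_bot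
  obtain ⟨P, hPm, hPo⟩ := Ideal.exists_maximal_ideal_liesOver_of_isIntegral q.asIdeal (S := 𝓞 L)
  have hPp : P.IsPrime := hPm.isPrime
  have hPb : P ≠ ⊥ := by
    rintro rfl
    apply q.ne_bot
    have h1 := hPo.over
    rw [h1]
    exact Ideal.under_bot (𝓞 K) (𝓞 L)
  have h6 : (6 : 𝓞 L) ∉ P := by
    intro h6
    apply hq
    rw [hPo.over, Ideal.mem_under]
    rw [map_ofNat]
    exact h6
  have hu := hU P hPb h6
  let w : HeightOneSpectrum (𝓞 L) := ⟨P, hPp, hPb⟩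
  have hwl : w.asIdeal.LiesOver q.asIdeal := hPo
  have hram : q.asIdeal.ramificationIdx' w.asIdeal = 1 := by
    have h2 : q.asIdeal.ramificationIdx' P = P.ramificationIdx (𝓞 K) :=
      Ideal.ramificationIdx'_eq_ramificationIdx q.asIdeal P q.ne_bot
    have h3 : P.ramificationIdx (𝓞 K) = 1 := Ideal.ramificationIdx_eq_one P (𝓞 K)
    exact h2.trans h3
  have hv := HeightOneSpectrum.valuation_liesOver (K := K) L q w k
  rw [hram, pow_one] at hv
  rw [hv]
  exact h w h6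

theorem step [IsGalois K L] (hU : UnrOut K L) (hK : NoMu K) (σ : L ≃ₐ[K] L)
    (hσ : ∀ τ : L ≃ₐ[K] L, τ ∈ Subgroup.zpowers σ)
    (hdesc : ∀ (φ : L →+* Om) (t : Om), InLoc φ t →
        InLoc (φ.comp (algebraMap K L)) (t ^ 3) → InLoc (φ.comp (algebraMap K L)) t)
    (hW : W K) (w : L) (hw0 : w ≠ 0) (hwv : ValCube w) (hwl : LocCube w)
    (ht : ∃ t : L, t ^ 3 = σ w / w) : ∃ y : L, y ^ 3 = w := by
  obtain ⟨t, ht⟩ := ht
  have hwt : σ w = w * t ^ 3 := by rw [ht]; field_simp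
  have hfin : FiniteDimensional K L := Module.Finite.of_restrictScalars_finite ℚ K L
  -- norm
  have hn3 : (Algebra.norm K t) ^ 3 = 1 := by
    have h1 : Algebra.norm K w * (Algebra.norm K t) ^ 3 = Algebra.norm K w * 1 := by
      rw [← map_pow, ← map_mul, ← hwt, mul_one, Algebra.norm_eq_of_algEquiv σ w]
    exact mul_left_cancel₀ (by rw [Ne, Algebra.norm_eq_zero_iff]; exact hw0) h1
  have hn : Algebra.norm K t = 1 := eq_one_of_cube hK hn3
  have hcyc : IsCyclic (L ≃ₐ[K] L) := ⟨σ, hσ⟩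
  obtain ⟨s, hs⟩ := groupCohomology.exists_div_of_norm_eq_one hσ hn
  have hs0 : (s : L) ≠ 0 := s.ne_zero
  have hσs : σ (s : L) ≠ 0 := by
    intro h
    exact hs0 (by simp at h)
  have hs' : t * σ (s : L) = s := by
    rw [← hs]
    exact div_mul_cancel₀ _ hσs
  -- invariance
  have hinv : σ (w * (s : L) ^ 3) = w * (s : L) ^ 3 := by
    rw [map_mul, map_pow, hwt, mul_assoc, ← mul_pow, hs']
  have hall : ∀ τ : L ≃ₐ[K] L, τ (w * (s : L) ^ 3) = w * (s : L) ^ 3 := by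
    intro τ
    obtain ⟨n, rfl⟩ := Subgroup.mem_zpowers_iff.mp (hσ τ)
    have hstab : σ ∈ MulAction.stabilizer (L ≃ₐ[K] L) (w * (s : L) ^ 3) := hinv
    exact (Subgroup.zpow_mem _ hstab n : σ ^ n ∈ MulAction.stabilizer (L ≃ₐ[K] L) (w * (s : L) ^ 3))
  have hbot := (IsGalois.mem_bot_iff_fixed (F := K) (E := L) (w * (s : L) ^ 3)).mpr hall
  obtain ⟨k, hk⟩ := IntermediateField.mem_bot.mp hbot
  have hk0 : k ≠ 0 := by
    rintro rfl
    rw [map_zero] at hk
    exact mul_ne_zero hw0 (pow_ne_zero 3 hs0) hk.symm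
  have hkv : ValCube k := by
    apply valCube_down hU
    rw [hk]
    exact valCube_mul hwv (valCube_cube _)
  have hkl : LocCube k := by
    intro φ
    obtain ⟨ψ, hψ⟩ := exists_ext K L φ
    obtain ⟨u, hu, hu3⟩ := hwl ψ
    have h3 : (u * ψ s) ^ 3 = φ k := by
      rw [mul_pow, hu3, ← map_pow, ← map_mul, ← hk, ← hψ]
      rfl
    refine ⟨u * ψ s, ?_, h3⟩
    rw [← hψ]
    apply hdesc ψ _ (inLoc_mul hu (inLoc_self ψ _))
    rw [h3, hψ]
    exact inLoc_self φ k
  obtain ⟨y, hy⟩ := hW k hk0 hkv hkl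
  refine ⟨algebraMap K L y / s, ?_⟩
  rw [div_pow, ← map_pow, hy, hk]
  field_simp

end main

/-- GUP: one step going up. -/
theorem gup (hLOC : LocStmt) : GupStmt := by
  intro K L _ _ _ _ _ _ h3 hU hK hW
  have hfin : FiniteDimensional K L := Module.Finite.of_restrictScalars_finite ℚ K L
  obtain ⟨hL, hdesc⟩ := hLOC K L h3 hK
  refine ⟨hL, ?_⟩
  have hcard : Nat.card (L ≃ₐ[K] L) = 3 := by
    rw [IsGalois.card_aut_eq_finrank, h3]
  have hp : Fact (Nat.Prime 3) := ⟨Nat.prime_three⟩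
  obtain ⟨σ, hσ⟩ := (isCyclic_of_prime_card hcard).exists_generator
  have hσ3 : ∀ x : L, σ (σ (σ x)) = x := by
    intro x
    have h : σ ^ 3 = 1 := by
      rw [← hcard]
      exact pow_card_eq_one'
    have h2 : (σ ^ 3 : L ≃ₐ[K] L) x = x := by rw [h]; rfl
    exact h2
  intro z hz0 hzv hzl
  -- closure of the class under `w ↦ σ w / w`
  have hcl : ∀ w : L, w ≠ 0 ∧ ValCube w ∧ LocCube w →
      σ w / w ≠ 0 ∧ ValCube (σ w / w) ∧ LocCube (σ w / w) := by
    rintro w ⟨h0, hv, hl⟩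
    have hσw : σ w ≠ 0 := by
      intro h
      exact h0 (by simpa using h)
    refine ⟨div_ne_zero hσw h0, ?_, ?_⟩
    · rw [div_eq_mul_inv]
      exact valCube_mul (valCube_map hv (σ : L ≃+* L)) (valCube_inv hv)
    · rw [div_eq_mul_inv]
      exact locCube_mul (locCube_map hl (σ : L ≃+* L)) (locCube_inv hl)
  have hst : ∀ w : L, w ≠ 0 ∧ ValCube w ∧ LocCube w → (∃ t : L, t ^ 3 = σ w / w) →
      ∃ y : L, y ^ 3 = w := fun w hw ht => step hU hK σ hσ hdesc hW w hw.1 hw.2.1 hw.2.2 ht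
  have hz : z ≠ 0 ∧ ValCube z ∧ LocCube z := ⟨hz0, hzv, hzl⟩
  have hz1 := hcl _ hz
  have hz2 := hcl _ hz1
  apply hst z hz
  apply hst _ hz1
  apply hst _ hz2
  have hσz : σ z ≠ 0 := by
    intro h
    exact hz0 (by simpa using h)
  have hσσz : σ (σ z) ≠ 0 := by
    intro h
    exact hσz (by simpa using h)
  refine ⟨σ z / σ (σ z), ?_⟩
  simp only [map_div₀, hσ3]
  field_simp

end Pool.Agent.Leo3.H83
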